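import Pool.Agent.Y199.DM.Orb
import Pool.Agent.Y199.DM.Emb
import Pool.Agent.Q41.ZP.Count2

/-!
# Orbits which become periodic modulo a place, at étale points: affine version

Helper file.
-/

set_option autoImplicit false

namespace Pool.Agent.Q116.DY

open MvPolynomial Pool.Agent.H936R2 Pool.Agent.Y199.DM

/-- For every set `S` of polynomials the set of all `n` such that all members of `S` vanish at the
`n`-th iterate of `x` is a finite union of arithmetic progressions. -/
def DML {ι : Type} (F : ι → MvPolynomial ι ℂ) (x : ι → ℂ) : Prop :=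
  ∀ S : Set (MvPolynomial ι ℂ), ∃ T : Finset (ℕ × ℕ),
    {n : ℕ | ∀ g ∈ S, eval ((pt F)^[n] x) g = 0} =
      {n : ℕ | ∃ q ∈ T, ∃ k : ℕ, n = q.1 * k + q.2}

/-- The interpolation step. -/
theorem dml_of_units {p : ℕ} [hp : Fact p.Prime] {ι : Type} [Fintype ι] [DecidableEq ι]
    (τ : ℂ →+* PadicAlgCl p) (f : ι → MvPolynomial ι ℂ) (x : ι → ℂ)
    (FO : ι → MvPolynomial ι (unitBall (PadicAlgCl p))) (b : ι → unitBall (PadicAlgCl p))
    (hitf : ∀ n i, (((pt FO)^[n] b i : unitBall (PadicAlgCl p)) : PadicAlgCl p) =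
      τ ((pt f)^[n] x i)) (n0 : ℕ)
    (hunit : ∀ n, n0 ≤ n → IsUnit (jac FO ((pt FO)^[n] b)).det) : DML f x := by
  intro S
  obtain ⟨n1, k, hk, hret⟩ := return_set p FO b n0 hunit
  apply exists_progressions _ n1 k hk
  intro r hinf t
  have hiff : ∀ n, (∀ q ∈ S, eval ((pt f)^[n] x) q = 0) ↔
      ∀ Q ∈ (fun q => map τ q) '' S,
        eval (fun i => (((pt FO)^[n] b i : unitBall (PadicAlgCl p)) : PadicAlgCl p)) Q = 0 := by
    intro n
    have hval : ∀ q : MvPolynomial ι ℂ,
        (eval (fun i => (((pt FO)^[n] b i : unitBall (PadicAlgCl p)) : PadicAlgCl p))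
          (map τ q) = 0 ↔ eval ((pt f)^[n] x) q = 0) := by
      intro q
      have e4 : (fun i => (((pt FO)^[n] b i : unitBall (PadicAlgCl p)) : PadicAlgCl p)) =
        fun i => τ ((pt f)^[n] x i) := _root_.funext (hitf n)
      have e1 : eval (fun i => τ ((pt f)^[n] x i)) (map τ q) = τ (eval ((pt f)^[n] x) q) := by
        rw [eval_map]
        have h := eval₂_comp_left τ (RingHom.id _) ((pt f)^[n] x) q
        rw [RingHom.comp_id] at h
        exact h.symm
      rw [e4, e1, map_eq_zero]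
    constructor
    · rintro h Q ⟨q, hq, rfl⟩
      exact (hval q).2 (h q hq)
    · intro h q hq
      exact (hval q).1 (h _ ⟨q, hq, rfl⟩)
  simp only [Set.mem_ofPred_eq, hiff] at hinf ⊢
  exact hret _ r hinf t

/-- An integral orbit which becomes periodic in the residue field, at étale points. -/
theorem core_aff {p : ℕ} [hp : Fact p.Prime] {ι : Type} [Fintype ι] [DecidableEq ι]
    (τ : ℂ →+* PadicAlgCl p) (f : ι → MvPolynomial ι ℂ) (x : ι → ℂ)
    (hf : ∀ i κ, ‖τ ((f i).coeff κ)‖ ≤ 1) (hx : ∀ i, ‖τ (x i)‖ ≤ 1) (a b : ℕ) (hab : a < b)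
    (hper : ∀ i, ‖τ ((pt f)^[b] x i) - τ ((pt f)^[a] x i)‖ < 1)
    (hjac : ∀ n, a ≤ n → n < b → ‖τ ((jac f ((pt f)^[n] x)).det)‖ = 1) : DML f x := by
  choose FO hFO using fun i => exists_lift τ (f i) (hf i)
  let c : ι → unitBall (PadicAlgCl p) := fun i => ⟨τ (x i), hx i⟩
  have hitf : ∀ n i, (((pt FO)^[n] c i : unitBall (PadicAlgCl p)) : PadicAlgCl p) =
      τ ((pt f)^[n] x i) := by
    intro n i
    have e1 := pt_map (unitBall (PadicAlgCl p)).subtype FO c n
    have e2 := pt_map τ f x n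
    have e3 : (fun i => map (unitBall (PadicAlgCl p)).subtype (FO i)) = fun i => map τ (f i) :=
      _root_.funext hFO
    have e4 : (fun i => (unitBall (PadicAlgCl p)).subtype (c i)) = fun i => τ (x i) := rfl
    rw [e3, e4, e2] at e1
    exact (congrFun e1 i).symm
  -- the residues
  let Fk : ι → MvPolynomial ι (ResF (PadicAlgCl p)) := fun i => map (res (PadicAlgCl p)) (FO i)
  let y : ℕ → ι → ResF (PadicAlgCl p) := fun n i => res (PadicAlgCl p) ((pt FO)^[n] c i)
  have hy : ∀ n, y n = (pt Fk)^[n] (y 0) := fun n => (pt_map (res (PadicAlgCl p)) FO c n).symm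
  have hyb : y b = y a := by
    funext i
    rw [← sub_eq_zero]
    change res (PadicAlgCl p) _ - res (PadicAlgCl p) _ = 0
    rw [← map_sub, res_eq_zero_iff]
    have e1 : (((pt FO)^[b] c i - (pt FO)^[a] c i : unitBall (PadicAlgCl p)) : PadicAlgCl p) =
        (((pt FO)^[b] c i : unitBall (PadicAlgCl p)) : PadicAlgCl p) -
          (((pt FO)^[a] c i : unitBall (PadicAlgCl p)) : PadicAlgCl p) := rfl
    rw [e1, hitf, hitf]
    exact hper i
  have hyper : ∀ n, a ≤ n → y (n + (b - a)) = y n := by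
    intro n hn
    have h1 : n + (b - a) = (n - a) + b := by omega
    have h2 : n = (n - a) + a := by omega
    rw [h1]
    conv_rhs => rw [h2]
    rw [hy, Function.iterate_add_apply, ← hy b, hyb, hy a, ← Function.iterate_add_apply, ← hy]
  have hdet : ∀ n, (jac Fk (y n)).det = res (PadicAlgCl p) (jac FO ((pt FO)^[n] c)).det := by
    intro n
    rw [RingHom.map_det, ← jac_map]
  have hne : ∀ n, a ≤ n → (jac Fk (y n)).det ≠ 0 := by
    intro n
    induction n using Nat.strong_induction_on with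
    | _ n ih =>
      intro hn
      rcases lt_or_ge n b with h | h
      · rw [hdet, Ne, res_eq_zero_iff]
        have e1 : (((jac FO ((pt FO)^[n] c)).det : unitBall (PadicAlgCl p)) : PadicAlgCl p) =
            τ ((jac f ((pt f)^[n] x)).det) := by
          have e2 : (((jac FO ((pt FO)^[n] c)).det : unitBall (PadicAlgCl p)) : PadicAlgCl p) =
            (unitBall (PadicAlgCl p)).subtype (jac FO ((pt FO)^[n] c)).det := rfl
          rw [e2, RingHom.map_det, ← jac_map, RingHom.map_det, ← jac_map]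
          have e3 : (fun i => map (unitBall (PadicAlgCl p)).subtype (FO i)) =
            fun i => map τ (f i) := _root_.funext hFO
          have e4 : (fun i => (unitBall (PadicAlgCl p)).subtype ((pt FO)^[n] c i)) =
            fun i => τ ((pt f)^[n] x i) := _root_.funext (hitf n)
          rw [e3, e4]
        rw [e1, hjac n hn h]
        exact lt_irrefl _
      · have h1 : n = (n - (b - a)) + (b - a) := by omega
        rw [h1, hyper _ (by omega)]
        exact ih _ (by omega) (by omega)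
  refine dml_of_units τ f x FO c hitf a fun n hn => ?_
  apply isUnit_of_res_ne_zero
  rw [← hdet]
  exact hne n hn

/-- The coefficients of a polynomial. -/
noncomputable def cf {r : ℕ} (q : MvPolynomial (Fin r) ℂ) : Finset ℂ :=
  q.support.image fun κ => q.coeff κ

lemma cf_le {r p : ℕ} [Fact p.Prime] {q : MvPolynomial (Fin r) ℂ} {τ : ℂ →+* PadicAlgCl p}
    (h : ∀ y ∈ cf q, ‖τ y‖ ≤ 1) (κ : Fin r →₀ ℕ) : ‖τ (q.coeff κ)‖ ≤ 1 := by
  by_cases h0 : q.coeff κ = 0
  · rw [h0, map_zero, norm_zero]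
    exact zero_le_one
  · exact h _ (Finset.mem_image.2 ⟨κ, mem_support_iff.2 h0, rfl⟩)

/-- Values at integral points are integral. -/
lemma norm_eval_le {r p : ℕ} [Fact p.Prime] {q : MvPolynomial (Fin r) ℂ} {τ : ℂ →+* PadicAlgCl p}
    (h : ∀ y ∈ cf q, ‖τ y‖ ≤ 1) (t : Fin r → ℤ) : ‖τ (eval (fun j => (t j : ℂ)) q)‖ ≤ 1 := by
  rw [eval_eq', map_sum]
  refine IsUltrametricDist.norm_sum_le_of_forall_le_of_nonneg zero_le_one fun κ _ => ?_
  rw [map_mul, norm_mul, map_prod, norm_prod]
  refine mul_le_one₀ (cf_le h κ) (Finset.prod_nonneg fun _ _ => norm_nonneg _) ?_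
  refine Finset.prod_le_one (fun _ _ => norm_nonneg _) fun j _ => ?_
  rw [map_pow, norm_pow, map_intCast]
  refine pow_le_one₀ (norm_nonneg _) ?_
  rw [norm_int]
  exact Padic.norm_int_le_one _

/-- The values of an integral polynomial. -/
lemma eval_map_int {r : ℕ} (f : MvPolynomial (Fin r) ℤ) (t : Fin r → ℤ) :
    eval (fun j => (t j : ℂ)) (map (Int.castRingHom ℂ) f) = ((eval t f : ℤ) : ℂ) := by
  rw [eval_map]
  have h := eval₂_comp_left (Int.castRingHom ℂ) (RingHom.id _) t f
  rw [RingHom.comp_id] at h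
  exact h.symm

/-- Embeddings for which given numbers are integral. -/
lemma exists_emb (s : Finset ℂ) : ∃ D : ℕ, ∀ (p : ℕ) [Fact p.Prime], D < p →
    ∃ τ : ℂ →+* PadicAlgCl p, ∀ x ∈ s, ‖τ x‖ ≤ 1 := by
  obtain ⟨D, hD⟩ := emb_alg s
  refine ⟨D, fun p hp hlt => ?_⟩
  obtain ⟨τ, h1, -⟩ := hD p hlt 0 Polynomial.X Polynomial.irreducible_X (by simp) 0 (by
    intro h
    have h3 : p ∣ 1 := by simpa using h
    exact hp.1.one_lt.ne' (Nat.dvd_one.1 h3)) (by
    have h3 : Pool.Agent.Y152.BD.Nv (Polynomial.X : Polynomial ℤ) 0 = 0 := by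
      rw [Pool.Agent.Y152.BD.Nv, Finset.sum_range_succ']
      simp
    rw [h3]
    exact dvd_zero _)
  exact ⟨τ, h1⟩

end Pool.Agent.Q116.DY
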