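import Pool.Agent.Q116.DY.Core

/-!
# Families of polynomial maps which are étale preperiodic along a hypersurface of parameters

Helper file.
-/

set_option autoImplicit false

namespace Pool.Agent.Q116.DY

open MvPolynomial Pool.Agent.H936R2 Pool.Agent.Y199.DM

/-- The member of a family of systems of polynomials. -/
noncomputable def member {ι : Type} {r : ℕ} (F : ι → MvPolynomial ι (MvPolynomial (Fin r) ℂ))
    (t : Fin r → ℂ) : ι → MvPolynomial ι ℂ := fun i => map (eval t) (F i)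

/-- The member of a family of points. -/
noncomputable def start {ι : Type} {r : ℕ} (x : ι → MvPolynomial (Fin r) ℂ) (t : Fin r → ℂ) :
    ι → ℂ := fun i => eval t (x i)

/-- An integral polynomial as a complex polynomial. -/
noncomputable abbrev toC {r : ℕ} (f : MvPolynomial (Fin r) ℤ) : MvPolynomial (Fin r) ℂ :=
  map (Int.castRingHom ℂ) f

variable {ι : Type} [Fintype ι] [DecidableEq ι] {r : ℕ}

lemma member_orbit (F : ι → MvPolynomial ι (MvPolynomial (Fin r) ℂ))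
    (x : ι → MvPolynomial (Fin r) ℂ) (t : Fin r → ℂ) (n : ℕ) :
    (pt (member F t))^[n] (start x t) = fun i => eval t ((pt F)^[n] x i) :=
  pt_map (eval t) F x n

lemma member_jac (F : ι → MvPolynomial ι (MvPolynomial (Fin r) ℂ))
    (x : ι → MvPolynomial (Fin r) ℂ) (t : Fin r → ℂ) (n : ℕ) :
    (jac (member F t) ((pt (member F t))^[n] (start x t))).det =
      eval t (jac F ((pt F)^[n] x)).det := by
  rw [member_orbit, RingHom.map_det, ← jac_map]
  rfl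

omit [DecidableEq ι] in
/-- The coefficients of the coefficients. -/
lemma exists_coeffs (F : ι → MvPolynomial ι (MvPolynomial (Fin r) ℂ)) : ∃ s : Finset ℂ,
    ∀ (p : ℕ) [Fact p.Prime] (τ : ℂ →+* PadicAlgCl p), (∀ y ∈ s, ‖τ y‖ ≤ 1) →
      ∀ t : Fin r → ℤ, ∀ i κ, ‖τ ((member F (fun j => (t j : ℂ)) i).coeff κ)‖ ≤ 1 := by
  classical
  refine ⟨Finset.univ.biUnion fun i => (F i).support.biUnion fun κ => cf ((F i).coeff κ),
    fun p _ τ hτ t i κ => ?_⟩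
  rw [member, coeff_map]
  by_cases h0 : (F i).coeff κ = 0
  · rw [h0, map_zero, map_zero, norm_zero]
    exact zero_le_one
  · refine norm_eval_le (fun y hy => hτ y ?_) t
    exact Finset.mem_biUnion.2 ⟨i, Finset.mem_univ _, Finset.mem_biUnion.2
      ⟨κ, mem_support_iff.2 h0, hy⟩⟩

/-- **The criterion.** -/
theorem family_core (F : ι → MvPolynomial ι (MvPolynomial (Fin r) ℂ))
    (x : ι → MvPolynomial (Fin r) ℂ) (f : MvPolynomial (Fin r) ℤ) (a b : ℕ) (hab : a < b)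
    (hper : ∀ i, toC f ∣ (pt F)^[b] x i - (pt F)^[a] x i)
    (h : ℕ → MvPolynomial (Fin r) ℤ) (c : ℕ → ℂ)
    (hjac : ∀ n, a ≤ n → n < b → c n ≠ 0 ∧
      toC f ∣ (jac F ((pt F)^[n] x)).det - C (c n) * toC (h n)) :
    ∃ D : ℕ, ∀ p : ℕ, p.Prime → D < p → ∀ t : Fin r → ℤ, (p : ℤ) ∣ eval t f →
      (∀ n, a ≤ n → n < b → ¬ (p : ℤ) ∣ eval t (h n)) →
      DML (member F fun j => (t j : ℂ)) (start x fun j => (t j : ℂ)) := by
  classical
  choose q hq using hper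
  have hjac' : ∀ n, ∃ u : MvPolynomial (Fin r) ℂ, a ≤ n → n < b →
      (jac F ((pt F)^[n] x)).det - C (c n) * toC (h n) = toC f * u := by
    intro n
    by_cases hn : a ≤ n ∧ n < b
    · obtain ⟨u, hu⟩ := (hjac n hn.1 hn.2).2
      exact ⟨u, fun _ _ => hu⟩
    · exact ⟨0, fun h1 h2 => absurd ⟨h1, h2⟩ hn⟩
  choose u hu using hjac'
  obtain ⟨s1, hs1⟩ := exists_coeffs F
  let s2 : Finset ℂ := Finset.univ.biUnion fun i => cf (x i) ∪ cf (q i)
  let s3 : Finset ℂ := (Finset.range b).biUnion fun n => cf (u n) ∪ {c n, (c n)⁻¹}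
  obtain ⟨D, hD⟩ := exists_emb (s1 ∪ s2 ∪ s3)
  refine ⟨D, fun p hp hlt t hdvd hnd => ?_⟩
  have hfact : Fact p.Prime := ⟨hp⟩
  obtain ⟨τ, hτ⟩ := hD p hlt
  have hτ1 : ∀ y ∈ s1, ‖τ y‖ ≤ 1 := fun y hy => hτ y (by simp [hy])
  have hτx : ∀ i, ∀ y ∈ cf (x i), ‖τ y‖ ≤ 1 := fun i y hy => hτ y (by
    have : y ∈ s2 := Finset.mem_biUnion.2 ⟨i, Finset.mem_univ _, Finset.mem_union_left _ hy⟩
    simp [this])
  have hτq : ∀ i, ∀ y ∈ cf (q i), ‖τ y‖ ≤ 1 := fun i y hy => hτ y (by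
    have : y ∈ s2 := Finset.mem_biUnion.2 ⟨i, Finset.mem_univ _, Finset.mem_union_right _ hy⟩
    simp [this])
  have hτ3 : ∀ y ∈ s3, ‖τ y‖ ≤ 1 := fun y hy => hτ y (by simp [hy])
  have hτu : ∀ n, n < b → ∀ y ∈ cf (u n), ‖τ y‖ ≤ 1 := fun n hn y hy => hτ3 y
    (Finset.mem_biUnion.2 ⟨n, Finset.mem_range.2 hn, Finset.mem_union_left _ hy⟩)
  have hτc : ∀ n, a ≤ n → n < b → ‖τ (c n)‖ = 1 := by
    intro n h1 h2
    have h3 : ‖τ (c n)‖ ≤ 1 := hτ3 _ (Finset.mem_biUnion.2 ⟨n, Finset.mem_range.2 h2,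
      Finset.mem_union_right _ (by simp)⟩)
    have h4 : ‖τ (c n)⁻¹‖ ≤ 1 := hτ3 _ (Finset.mem_biUnion.2 ⟨n, Finset.mem_range.2 h2,
      Finset.mem_union_right _ (by simp)⟩)
    have h5 : ‖τ (c n)‖ ≠ 0 := by
      rw [norm_ne_zero_iff]
      exact (map_ne_zero τ).2 (hjac n h1 h2).1
    rw [map_inv₀, norm_inv] at h4
    refine le_antisymm h3 ?_
    by_contra hlt'
    push Not at hlt'
    exact absurd h4 (not_le.2 ((one_lt_inv₀ (lt_of_le_of_ne (norm_nonneg _) (Ne.symm h5))).2 hlt'))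
  -- the values of `f` are small
  have hfsm : ‖τ (eval (fun j => (t j : ℂ)) (toC f))‖ < 1 := by
    rw [eval_map_int, map_intCast]
    exact norm_lt_of_dvd hdvd
  refine core_aff τ _ _ (hs1 p τ hτ1 t) (fun i => norm_eval_le (hτx i) t) a b hab
    (fun i => ?_) (fun n h1 h2 => ?_)
  · rw [member_orbit, member_orbit, ← map_sub, ← map_sub, hq i, map_mul, map_mul, norm_mul]
    exact mul_lt_one_of_nonneg_of_lt_one_left (norm_nonneg _) hfsm (norm_eval_le (hτq i) t)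
  · rw [member_jac]
    have h3 : (jac F ((pt F)^[n] x)).det = toC f * u n + C (c n) * toC (h n) := by
      rw [← hu n h1 h2]
      ring
    rw [h3, map_add, map_mul, map_mul, eval_C, map_add, map_mul, map_mul, add_comm]
    have h4 : ‖τ (c n) * τ (eval (fun j => (t j : ℂ)) (toC (h n)))‖ = 1 := by
      rw [norm_mul, hτc n h1 h2, one_mul, eval_map_int, map_intCast]
      refine le_antisymm ?_ ?_
      · rw [norm_int]
        exact Padic.norm_int_le_one _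
      · by_contra hlt'
        push Not at hlt'
        exact hnd n h1 h2 (dvd_of_norm_lt hlt')
    have h5 : ‖τ (eval (fun j => (t j : ℂ)) (toC f)) *
        τ (eval (fun j => (t j : ℂ)) (u n))‖ < 1 := by
      rw [norm_mul]
      exact mul_lt_one_of_nonneg_of_lt_one_left (norm_nonneg _) hfsm
        (norm_eval_le (hτu n h2) t)
    rw [IsUltrametricDist.norm_add_eq_max_of_norm_ne_norm (by rw [h4]; exact h5.ne'), h4,
      max_eq_left h5.le]

/-- **The count.** -/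
theorem family_count (F : ι → MvPolynomial ι (MvPolynomial (Fin r) ℂ))
    (x : ι → MvPolynomial (Fin r) ℂ) (f : MvPolynomial (Fin r) ℤ) (hf : Irreducible f)
    (hd : f.totalDegree ≠ 0) (a b : ℕ) (hab : a < b)
    (hper : ∀ i, toC f ∣ (pt F)^[b] x i - (pt F)^[a] x i)
    (hjac : ∀ n, a ≤ n → n < b → ∃ h : MvPolynomial (Fin r) ℤ, ¬ f ∣ h ∧ ∃ c : ℂ, c ≠ 0 ∧
      toC f ∣ (jac F ((pt F)^[n] x)).det - C c * toC h) {ε : ℝ} (hε : 0 < ε) :
    ∃ K : ℝ, ∀ H : ℕ, 1 ≤ H →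
      (Set.ncard {t : Fin r → ℤ | (∀ j, |t j| ≤ (H : ℤ)) ∧
        ¬ DML (member F fun j => (t j : ℂ)) (start x fun j => (t j : ℂ))} : ℝ) ≤
          K * (H : ℝ) ^ ((r : ℝ) - 1 + ε) := by
  classical
  have hjac' : ∀ n, ∃ h : MvPolynomial (Fin r) ℤ, ∃ c : ℂ, ¬ f ∣ h ∧ (a ≤ n → n < b → c ≠ 0 ∧
      toC f ∣ (jac F ((pt F)^[n] x)).det - C c * toC h) := by
    intro n
    by_cases hn : a ≤ n ∧ n < b
    · obtain ⟨h, h1, c, h2, h3⟩ := hjac n hn.1 hn.2
      exact ⟨h, c, h1, fun _ _ => ⟨h2, h3⟩⟩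
    · exact ⟨1, 1, fun h1 => hf.not_isUnit (isUnit_of_dvd_one h1),
        fun h1 h2 => absurd ⟨h1, h2⟩ hn⟩
  choose h c hh hc using hjac'
  obtain ⟨D, hD⟩ := family_core F x f a b hab hper h c hc
  obtain ⟨K, hK⟩ := Pool.Agent.Q41.ZP.count_sym2 (fun _ : Fin 1 => f) (fun _ => hf) (fun _ => hd)
    (fun l l' hne => absurd (Subsingleton.elim l l') hne)
    (fun (_ : Fin 1) (n : Fin b) => h n) (fun _ n => hh n) D hε
  refine ⟨K, fun H hH => le_trans ?_ (hK H hH)⟩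
  have hfin : {z : Fin r → ℤ | (∀ j, |z j| ≤ (H : ℤ)) ∧
      ¬ Pool.Agent.Q41.ZP.Good (MvPolynomial.eval z) (fun _ : Fin 1 => f)
        (fun (_ : Fin 1) (n : Fin b) => h n) D}.Finite := by
    refine (Set.finite_Icc (fun _ => -(H : ℤ)) (fun _ => (H : ℤ))).subset fun z hz => ?_
    exact ⟨fun k => (abs_le.1 (hz.1 k)).1, fun k => (abs_le.1 (hz.1 k)).2⟩
  refine Nat.cast_le.2 (Set.ncard_le_ncard ?_ hfin)
  rintro t ⟨ht, hno⟩
  refine ⟨ht, fun hgood => hno ?_⟩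
  obtain ⟨-, p, hp, -, hg⟩ := hgood
  exact hD (p 0) (hp 0).1 (hp 0).2.1 t (hp 0).2.2 fun n _ h2 => hg 0 ⟨n, h2⟩

end Pool.Agent.Q116.DY
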