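import Pool.Agent.Q116.DY.Proj

/-!
# Families of systems of forms which are étale preperiodic along a hypersurface of parameters

Helper file.
-/

set_option autoImplicit false

namespace Pool.Agent.Q116.DY

open MvPolynomial Pool.Agent.H936R2 Pool.Agent.Y199.DM

variable {r : ℕ}

/-- Modulo `f`, `q` is a complex number different from zero times an integral polynomial which is
different from zero modulo `f`. -/
def UnitMod (f : MvPolynomial (Fin r) ℤ) (q : MvPolynomial (Fin r) ℂ) : Prop :=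
  ∃ h : MvPolynomial (Fin r) ℤ, ¬ f ∣ h ∧ ∃ c : ℂ, c ≠ 0 ∧ toC f ∣ q - C c * toC h

/-- The values of such a polynomial are units. -/
theorem unitMod_emb {f : MvPolynomial (Fin r) ℤ} {q : MvPolynomial (Fin r) ℂ} (hq : UnitMod f q) :
    ∃ (h : MvPolynomial (Fin r) ℤ) (s : Finset ℂ), ¬ f ∣ h ∧ ∀ (p : ℕ) [Fact p.Prime]
      (τ : ℂ →+* PadicAlgCl p), (∀ y ∈ s, ‖τ y‖ ≤ 1) → ∀ t : Fin r → ℤ, (p : ℤ) ∣ eval t f →
        ¬ (p : ℤ) ∣ eval t h → ‖τ (eval (fun j => (t j : ℂ)) q)‖ = 1 := by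
  classical
  obtain ⟨h, hh, c, hc, u, hu⟩ := hq
  refine ⟨h, cf u ∪ {c, c⁻¹}, hh, fun p _ τ hτ t hdvd hnd => ?_⟩
  have hτu : ∀ y ∈ cf u, ‖τ y‖ ≤ 1 := fun y hy => hτ y (Finset.mem_union_left _ hy)
  have hτc : ‖τ c‖ = 1 := by
    have h3 : ‖τ c‖ ≤ 1 := hτ _ (Finset.mem_union_right _ (by simp))
    have h4 : ‖τ c⁻¹‖ ≤ 1 := hτ _ (Finset.mem_union_right _ (by simp))
    have h5 : ‖τ c‖ ≠ 0 := by
      rw [norm_ne_zero_iff]
      exact (map_ne_zero τ).2 hc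
    rw [map_inv₀, norm_inv] at h4
    refine le_antisymm h3 ?_
    by_contra hlt'
    push Not at hlt'
    exact absurd h4 (not_le.2 ((one_lt_inv₀ (lt_of_le_of_ne (norm_nonneg _) (Ne.symm h5))).2 hlt'))
  have hfsm : ‖τ (eval (fun j => (t j : ℂ)) (toC f))‖ < 1 := by
    rw [eval_map_int, map_intCast]
    exact norm_lt_of_dvd hdvd
  have h3 : q = toC f * u + C c * toC h := by
    rw [← hu]
    ring
  rw [h3, map_add, map_mul, map_mul, eval_C, map_add, map_mul, map_mul, add_comm]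
  have h4 : ‖τ c * τ (eval (fun j => (t j : ℂ)) (toC h))‖ = 1 := by
    rw [norm_mul, hτc, one_mul, eval_map_int, map_intCast]
    refine le_antisymm ?_ ?_
    · rw [norm_int]
      exact Padic.norm_int_le_one _
    · by_contra hlt'
      push Not at hlt'
      exact hnd (dvd_of_norm_lt hlt')
  have h5 : ‖τ (eval (fun j => (t j : ℂ)) (toC f)) *
      τ (eval (fun j => (t j : ℂ)) u)‖ < 1 := by
    rw [norm_mul]
    exact mul_lt_one_of_nonneg_of_lt_one_left (norm_nonneg _) hfsm (norm_eval_le hτu t)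
  rw [IsUltrametricDist.norm_add_eq_max_of_norm_ne_norm (by rw [h4]; exact h5.ne'), h4,
    max_eq_left h5.le]

/-- **The count for families of systems of forms.** -/
theorem family_count_proj {N d : ℕ}
    (F : Fin (N + 1) → MvPolynomial (Fin (N + 1)) (MvPolynomial (Fin r) ℂ))
    (hom : ∀ i, (F i).IsHomogeneous d) (x : Fin (N + 1) → MvPolynomial (Fin r) ℂ)
    (f : MvPolynomial (Fin r) ℤ) (hf : Irreducible f) (hd : f.totalDegree ≠ 0) (a b : ℕ)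
    (hab : a < b)
    (hper : ∀ i j, toC f ∣ (pt F)^[b] x i * (pt F)^[a] x j - (pt F)^[b] x j * (pt F)^[a] x i)
    (hnz : ∀ n, n ≤ b → ∃ i, UnitMod f ((pt F)^[n] x i))
    (hjac : ∀ n, a ≤ n → n < b → UnitMod f (jac F ((pt F)^[n] x)).det) {ε : ℝ} (hε : 0 < ε) :
    ∃ K : ℝ, ∀ H : ℕ, 1 ≤ H →
      (Set.ncard {t : Fin r → ℤ | (∀ j, |t j| ≤ (H : ℤ)) ∧
        ¬ DMLAt (member F fun j => (t j : ℂ)) (start x fun j => (t j : ℂ))} : ℝ) ≤
          K * (H : ℝ) ^ ((r : ℝ) - 1 + ε) := by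
  classical
  choose q hq using hper
  have h1' : ∀ n, ∃ i, ∃ (h : MvPolynomial (Fin r) ℤ) (s : Finset ℂ), ¬ f ∣ h ∧ (n ≤ b →
      ∀ (p : ℕ) [Fact p.Prime] (τ : ℂ →+* PadicAlgCl p), (∀ y ∈ s, ‖τ y‖ ≤ 1) →
        ∀ t : Fin r → ℤ, (p : ℤ) ∣ eval t f →
        ¬ (p : ℤ) ∣ eval t h → ‖τ (eval (fun j => (t j : ℂ)) ((pt F)^[n] x i))‖ = 1) := by
    intro n
    by_cases hn : n ≤ b
    · obtain ⟨i, hi⟩ := hnz n hn
      obtain ⟨h, s, h1, h2⟩ := unitMod_emb hi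
      exact ⟨i, h, s, h1, fun _ => h2⟩
    · exact ⟨0, 1, ∅, fun h1 => hf.not_isUnit (isUnit_of_dvd_one h1), fun h => absurd h hn⟩
  choose i1 h1 s1 hh1 hs1 using h1'
  have h2' : ∀ n, ∃ (h : MvPolynomial (Fin r) ℤ) (s : Finset ℂ), ¬ f ∣ h ∧ (a ≤ n → n < b →
      ∀ (p : ℕ) [Fact p.Prime] (τ : ℂ →+* PadicAlgCl p), (∀ y ∈ s, ‖τ y‖ ≤ 1) →
        ∀ t : Fin r → ℤ, (p : ℤ) ∣ eval t f →
        ¬ (p : ℤ) ∣ eval t h →
          ‖τ (eval (fun j => (t j : ℂ)) (jac F ((pt F)^[n] x)).det)‖ = 1) := by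
    intro n
    by_cases hn : a ≤ n ∧ n < b
    · obtain ⟨h, s, h1, h2⟩ := unitMod_emb (hjac n hn.1 hn.2)
      exact ⟨h, s, h1, fun _ _ => h2⟩
    · exact ⟨1, ∅, fun h1 => hf.not_isUnit (isUnit_of_dvd_one h1), fun h h' => absurd ⟨h, h'⟩ hn⟩
  choose h2 s2 hh2 hs2 using h2'
  obtain ⟨s0, hs0⟩ := exists_coeffs F
  let s3 : Finset ℂ := Finset.univ.biUnion fun i => cf (x i)
  let s4 : Finset ℂ := Finset.univ.biUnion fun i => Finset.univ.biUnion fun j => cf (q i j)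
  let s5 : Finset ℂ := (Finset.range (b + 1)).biUnion fun n => s1 n ∪ s2 n
  obtain ⟨D, hD⟩ := exists_emb (s0 ∪ s3 ∪ s4 ∪ s5)
  let G : Fin (b + 1) ⊕ Fin (b + 1) → MvPolynomial (Fin r) ℤ :=
    Sum.elim (fun n => h1 n.1) fun n => h2 n.1
  obtain ⟨K, hK⟩ := Pool.Agent.Q41.ZP.count_sym2 (fun _ : Fin 1 => f) (fun _ => hf) (fun _ => hd)
    (fun l l' hne => absurd (Subsingleton.elim l l') hne)
    (fun (_ : Fin 1) n => G n)
    (fun _ n => by
      rcases n with n | n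
      · exact hh1 n.1
      · exact hh2 n.1) D hε
  refine ⟨K, fun H hH => le_trans ?_ (hK H hH)⟩
  have hfin : {z : Fin r → ℤ | (∀ j, |z j| ≤ (H : ℤ)) ∧
      ¬ Pool.Agent.Q41.ZP.Good (MvPolynomial.eval z) (fun _ : Fin 1 => f)
        (fun (_ : Fin 1) n => G n) D}.Finite := by
    refine (Set.finite_Icc (fun _ => -(H : ℤ)) (fun _ => (H : ℤ))).subset fun z hz => ?_
    exact ⟨fun k => (abs_le.1 (hz.1 k)).1, fun k => (abs_le.1 (hz.1 k)).2⟩
  refine Nat.cast_le.2 (Set.ncard_le_ncard ?_ hfin)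
  rintro t ⟨ht, hno⟩
  refine ⟨ht, fun hgood => hno ?_⟩
  obtain ⟨-, p', hp', -, hg⟩ := hgood
  have hfact : Fact (p' 0).Prime := ⟨(hp' 0).1⟩
  obtain ⟨τ, hτ⟩ := hD (p' 0) (hp' 0).2.1
  have hτ0 : ∀ y ∈ s0, ‖τ y‖ ≤ 1 := fun y hy => hτ y (by simp [hy])
  have hτx : ∀ i, ∀ y ∈ cf (x i), ‖τ y‖ ≤ 1 := fun i y hy => hτ y (by
    have : y ∈ s3 := Finset.mem_biUnion.2 ⟨i, Finset.mem_univ _, hy⟩
    simp [this])
  have hτq : ∀ i j, ∀ y ∈ cf (q i j), ‖τ y‖ ≤ 1 := fun i j y hy => hτ y (by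
    have : y ∈ s4 := Finset.mem_biUnion.2 ⟨i, Finset.mem_univ _,
      Finset.mem_biUnion.2 ⟨j, Finset.mem_univ _, hy⟩⟩
    simp [this])
  have hτ5 : ∀ y ∈ s5, ‖τ y‖ ≤ 1 := fun y hy => hτ y (by simp [hy])
  have hfsm : ‖τ (eval (fun j => (t j : ℂ)) (toC f))‖ < 1 := by
    rw [eval_map_int, map_intCast]
    exact norm_lt_of_dvd (hp' 0).2.2
  refine core_proj (d := d) τ (member F fun j => (t j : ℂ)) (fun i => (hom i).map _)
    (start x fun j => (t j : ℂ)) (hs0 (p' 0) τ hτ0 t)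
    (fun i => norm_eval_le (hτx i) t) a b hab (fun i j => ?_) (fun n hn => ?_)
    (fun n hn1 hn2 => ?_)
  · rw [member_orbit, member_orbit, ← map_mul, ← map_mul, ← map_sub, hq i j, map_mul, map_mul,
      norm_mul]
    exact mul_lt_one_of_nonneg_of_lt_one_left (norm_nonneg _) hfsm (norm_eval_le (hτq i j) t)
  · refine ⟨i1 n, ?_⟩
    rw [member_orbit]
    refine hs1 n hn (p' 0) τ (fun y hy => hτ5 y (Finset.mem_biUnion.2 ⟨n,
      Finset.mem_range.2 (by omega), Finset.mem_union_left _ hy⟩)) t (hp' 0).2.2 ?_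
    exact hg 0 (Sum.inl ⟨n, by omega⟩)
  · rw [member_jac]
    refine hs2 n hn1 hn2 (p' 0) τ (fun y hy => hτ5 y (Finset.mem_biUnion.2 ⟨n,
      Finset.mem_range.2 (by omega), Finset.mem_union_right _ hy⟩)) t (hp' 0).2.2 ?_
    exact hg 0 (Sum.inr ⟨n, by omega⟩)

end Pool.Agent.Q116.DY
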