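import Pool.Agent.Q116.DY.Fam

/-!
# Orbits which become periodic modulo a place, at étale points: projective version

Helper file.
-/

set_option autoImplicit false

namespace Pool.Agent.Q116.DY

open MvPolynomial Pool.Agent.H936R2 Pool.Agent.Y199.DM

section scale

variable {K : Type} [Field K] {N d : ℕ}

theorem pt_smul' (F : Fin (N + 1) → MvPolynomial (Fin (N + 1)) K)
    (hF : ∀ i, (F i).IsHomogeneous d) (c : K) (x : Fin (N + 1) → K) :
    pt F (c • x) = c ^ d • pt F x := by
  funext i
  have := eval_scale (F i) d (hF i) c x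
  simp only [pt, Pi.smul_apply, smul_eq_mul]
  rw [← this]
  rfl

theorem jac_smul' (F : Fin (N + 1) → MvPolynomial (Fin (N + 1)) K)
    (hF : ∀ i, (F i).IsHomogeneous d) (c : K) (x : Fin (N + 1) → K) :
    (jac F (c • x)).det = (c ^ (d - 1)) ^ (N + 1) * (jac F x).det := by
  have h1 : jac F (c • x) = c ^ (d - 1) • jac F x := by
    ext i j
    simp only [jac, Matrix.smul_apply, smul_eq_mul]
    have := eval_scale (pderiv j (F i)) (d - 1) (hF i).pderiv c x
    rw [← this]
    rfl
  rw [h1, Matrix.det_smul, Fintype.card_fin]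

end scale

/-- An integral orbit which becomes periodic in the projective space over the residue field, at étale
points. -/
theorem core_proj {p : ℕ} [hp : Fact p.Prime] {N d : ℕ}
    (τ : ℂ →+* PadicAlgCl p) (f : Fin (N + 1) → MvPolynomial (Fin (N + 1)) ℂ)
    (hom : ∀ i, (f i).IsHomogeneous d) (x : Fin (N + 1) → ℂ)
    (hf : ∀ i κ, ‖τ ((f i).coeff κ)‖ ≤ 1) (hx : ∀ i, ‖τ (x i)‖ ≤ 1) (a b : ℕ) (hab : a < b)
    (hper : ∀ i j, ‖τ ((pt f)^[b] x i * (pt f)^[a] x j - (pt f)^[b] x j * (pt f)^[a] x i)‖ < 1)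
    (hne : ∀ n, n ≤ b → ∃ i, ‖τ ((pt f)^[n] x i)‖ = 1)
    (hjac : ∀ n, a ≤ n → n < b → ‖τ ((jac f ((pt f)^[n] x)).det)‖ = 1) : DMLAt f x := by
  choose FO hFO using fun i => exists_lift τ (f i) (hf i)
  let c : Fin (N + 1) → unitBall (PadicAlgCl p) := fun i => ⟨τ (x i), hx i⟩
  have hitf : ∀ n i, (((pt FO)^[n] c i : unitBall (PadicAlgCl p)) : PadicAlgCl p) =
      τ ((pt f)^[n] x i) := by
    intro n i
    have e1 := pt_map (unitBall (PadicAlgCl p)).subtype FO c n
    have e2 := pt_map τ f x n
    have e3 : (fun i => map (unitBall (PadicAlgCl p)).subtype (FO i)) = fun i => map τ (f i) :=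
      _root_.funext hFO
    have e4 : (fun i => (unitBall (PadicAlgCl p)).subtype (c i)) = fun i => τ (x i) := rfl
    rw [e3, e4, e2] at e1
    exact (congrFun e1 i).symm
  -- the residues
  let Fk : Fin (N + 1) → MvPolynomial (Fin (N + 1)) (ResF (PadicAlgCl p)) := fun i =>
    map (res (PadicAlgCl p)) (FO i)
  have homk : ∀ i, (Fk i).IsHomogeneous d := by
    intro i
    refine IsHomogeneous.map ?_ _
    refine IsHomogeneous.of_map (f := (unitBall (PadicAlgCl p)).subtype) Subtype.val_injective ?_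
    rw [hFO]
    exact (hom i).map τ
  let y : ℕ → Fin (N + 1) → ResF (PadicAlgCl p) := fun n i =>
    res (PadicAlgCl p) ((pt FO)^[n] c i)
  have hy : ∀ n, y n = (pt Fk)^[n] (y 0) := fun n => (pt_map (res (PadicAlgCl p)) FO c n).symm
  have hysucc : ∀ n, y (n + 1) = pt Fk (y n) := by
    intro n
    rw [hy, Function.iterate_succ_apply', ← hy]
  have hy0 : ∀ n, n ≤ b → y n ≠ 0 := by
    intro n hn h0
    obtain ⟨i, hi⟩ := hne n hn
    have h1 := congrFun h0 i
    change res (PadicAlgCl p) ((pt FO)^[n] c i) = 0 at h1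
    rw [res_eq_zero_iff, hitf, hi] at h1
    exact lt_irrefl _ h1
  -- proportional
  obtain ⟨lam, hlam0, hyb⟩ : ∃ lam : ResF (PadicAlgCl p), lam ≠ 0 ∧ y b = lam • y a := by
    obtain ⟨j, hj⟩ := Function.ne_iff.1 (hy0 a hab.le)
    rw [Pi.zero_apply] at hj
    have hmin : ∀ i, y b i * y a j = y b j * y a i := by
      intro i
      rw [← sub_eq_zero]
      change res (PadicAlgCl p) _ * res (PadicAlgCl p) _ -
        res (PadicAlgCl p) _ * res (PadicAlgCl p) _ = 0
      rw [← map_mul, ← map_mul, ← map_sub, res_eq_zero_iff]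
      have e1 : (((pt FO)^[b] c i * (pt FO)^[a] c j - (pt FO)^[b] c j * (pt FO)^[a] c i :
          unitBall (PadicAlgCl p)) : PadicAlgCl p) =
          (((pt FO)^[b] c i : unitBall (PadicAlgCl p)) : PadicAlgCl p) *
          (((pt FO)^[a] c j : unitBall (PadicAlgCl p)) : PadicAlgCl p) -
          (((pt FO)^[b] c j : unitBall (PadicAlgCl p)) : PadicAlgCl p) *
          (((pt FO)^[a] c i : unitBall (PadicAlgCl p)) : PadicAlgCl p) := rfl
      rw [e1, hitf, hitf, hitf, hitf, ← map_mul, ← map_mul, ← map_sub]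
      exact hper i j
    refine ⟨y b j / y a j, ?_, ?_⟩
    · intro h0
      rw [div_eq_zero_iff, or_iff_left hj] at h0
      apply hy0 b le_rfl
      funext i
      have h1 := hmin i
      rw [h0, zero_mul] at h1
      exact (mul_eq_zero.1 h1).resolve_right hj
    · funext i
      rw [Pi.smul_apply, smul_eq_mul, div_mul_eq_mul_div, eq_div_iff hj]
      exact hmin i
  have hyper : ∀ n, a ≤ n → ∃ mu : ResF (PadicAlgCl p), mu ≠ 0 ∧ y (n + (b - a)) = mu • y n := by
    intro n hn
    induction n, hn using Nat.le_induction with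
    | base =>
      refine ⟨lam, hlam0, ?_⟩
      have h1 : a + (b - a) = b := by omega
      rw [h1]
      exact hyb
    | succ n hn ih =>
      obtain ⟨mu, hmu, h⟩ := ih
      refine ⟨mu ^ d, pow_ne_zero _ hmu, ?_⟩
      have h1 : n + 1 + (b - a) = n + (b - a) + 1 := by omega
      rw [h1, hysucc, hysucc, h, pt_smul' Fk homk]
  have hdet : ∀ n, (jac Fk (y n)).det = res (PadicAlgCl p) (jac FO ((pt FO)^[n] c)).det := by
    intro n
    rw [RingHom.map_det, ← jac_map]
  have hall : ∀ n, y n ≠ 0 ∧ (a ≤ n → (jac Fk (y n)).det ≠ 0) := by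
    intro n
    induction n using Nat.strong_induction_on with
    | _ n ih =>
      rcases lt_or_ge n b with h | h
      · refine ⟨hy0 n h.le, fun hn => ?_⟩
        rw [hdet, Ne, res_eq_zero_iff]
        have e1 : (((jac FO ((pt FO)^[n] c)).det : unitBall (PadicAlgCl p)) : PadicAlgCl p) =
            τ ((jac f ((pt f)^[n] x)).det) := by
          have e2 : (((jac FO ((pt FO)^[n] c)).det : unitBall (PadicAlgCl p)) : PadicAlgCl p) =
            (unitBall (PadicAlgCl p)).subtype (jac FO ((pt FO)^[n] c)).det := rfl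
          rw [e2, RingHom.map_det, ← jac_map, RingHom.map_det, ← jac_map]
          have e3 : (fun i => map (unitBall (PadicAlgCl p)).subtype (FO i)) =
            fun i => map τ (f i) := _root_.funext hFO
          have e4 : (fun i => (unitBall (PadicAlgCl p)).subtype ((pt FO)^[n] c i)) =
            fun i => τ ((pt f)^[n] x i) := _root_.funext (hitf n)
          rw [e3, e4]
        rw [e1, hjac n hn h]
        exact lt_irrefl _
      · have h1 : n = (n - (b - a)) + (b - a) := by omega
        obtain ⟨mu, hmu, h2⟩ := hyper (n - (b - a)) (by omega)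
        obtain ⟨h3, h4⟩ := ih (n - (b - a)) (by omega)
        rw [← h1] at h2
        rw [h2]
        refine ⟨smul_ne_zero hmu h3, fun _ => ?_⟩
        rw [jac_smul' Fk homk]
        exact mul_ne_zero (pow_ne_zero _ (pow_ne_zero _ hmu)) (h4 (by omega))
  refine ⟨fun n h0 => (hall n).1 ?_, ?_⟩
  · funext i
    change res (PadicAlgCl p) ((pt FO)^[n] c i) = 0
    rw [res_eq_zero_iff, hitf, h0, Pi.zero_apply, map_zero, norm_zero]
    exact one_pos
  · refine dml_of_units τ f x FO c hitf a fun n hn => ?_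
    apply isUnit_of_res_ne_zero
    rw [← hdet]
    exact (hall n).2 hn

end Pool.Agent.Q116.DY
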